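import Pool.Agent.TH132.A.HMain

/-!
# MP_361a6f_ag: the conjecture of Hodge type for the products of almost all members with all
varieties of small rank

Let `Y` be a smooth projective variety over an algebraic closure of a finite field whose cohomology is
spanned by algebraic classes, for example a projective space. Let `F i`, for `i` in a finite set, be
families of varieties `X_s` over `Y`, whose cohomology is the sum of the pull-back of the cohomology of
`Y` and of a subspace `P_s` of the cohomology of degree `dim X_s`, with large symplectic or
orthogonal monodromy. Let `E` be a number field in the complex numbers, and let `r` be smaller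
than the degrees of the real Weil polynomials of the members.

Then for all `ε > 0` and all large `m`, for all but at most `ε * ∏ i, #S_i(m)` of the tuples `s` in the
product of the sets `S_i(m)` of the parameters with coordinates in the field with `p ^ m` elements,
for all (ample) divisors `D i` on the members `X_{i, s_i}`, for **all products** `(X, D)` of the members
`(X_{i, s_i}, D i)`, with any number of factors, for **all** varieties `U` for which the eigenvalues of
the Frobenius endomorphism on the cohomology of `U` have rank at most `r` over `E` (with `r = 0`: the
eigenvalues and their conjugates have powers in `E`; this is true for each given `U`, if `E` is large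
enough), and for **all** divisors `B` on `U` satisfying the hard Lefschetz theorem:

the standard conjecture of Hodge type holds for `X × U` and the divisor `D × U + X × B` **if and only
if** it holds for `U` and `B`.

Nothing else is assumed on `U`: no conjecture of Lefschetz type `A` or `B`, no Tate conjecture, no
semisimplicity of Frobenius, no coincidence of homological and numerical equivalence. The assumptions
on the members (`IsPolarization`) are the same as in the theorem on the products of the members
alone: for example for hypersurface sections without forced eigenvalues `± q ^ (n / 2)` of the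
Frobenius endomorphism nothing is assumed except the conjecture for the classes from `Y`.
-/

set_option autoImplicit false

open CategoryTheory AlgebraicGeometry Polynomial

universe u v

namespace Pool.Agent.Results.MP_361a6f_ag.AlmostAllTimesVarieties

open Pool.Agent.H914 Pool.Agent.W534 Pool.Agent.W458.MF VarClass Obj WeilCohomology
  Pool.Agent.H281R3.HT Pool.Agent.W458.RK Pol Pool.Agent.TH132.A

/-- **The standard conjecture of Hodge type for the products of almost all members with all varieties
of small Frobenius rank.** -/
theorem result {k : Type u} [Field k] {𝒱 : VarClass k} {ops : CycleOps 𝒱}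
    (W : WeilCohomology.{u, v} ops) [IsAlgClosed W.K] (σ : W.K →+* ℂ) (p : ℕ)
    (hp : p.Prime) (Φ : FrobSystem W p) (Y : 𝒱.Obj) (hY : ∀ x : W.H Y, x ∈ algSpan W Y)
    {I : Type} [Fintype I] (F : I → Family W Y) (e : I → ℕ)
    (hF : ∀ i, HasLargeMonodromy (F i) Φ (e i)) (E : Subfield ℂ) [NumberField E] (r : ℕ)
    (hr : ∀ i m (s : (F i).S m), r < ((F i).member m s).pol.natDegree) (ε : ℝ) (hε : 0 < ε) :
    ∃ m₀ : ℕ, ∀ m ≥ m₀, ({s : ∀ i, (F i).S m |
        ¬ ∀ D : ∀ i, ((F i).member m (s i)).obj.Cycles,
          (∀ i, IsPolarization ((F i).member m (s i)) Φ m (e i) (D i)) →
            ∀ X, IsPower ops (fun i => ⟨((F i).member m (s i)).obj, D i⟩) X →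
              ∀ U : Polarized 𝒱, EigenvaluesOfRank σ E r (W.map (Φ.Fr U.X)).toLinearMap →
                U.X.IsCyc 1 U.D → HardLefschetz W U.X U.D →
                  (HodgeTypeFor W (X.prod ops U).X (X.prod ops U).D (fun _ => True) ↔
                    HodgeTypeFor W U.X U.D fun _ => True)}.ncard : ℝ) ≤
      ε * ∏ i, (Nat.card ((F i).S m) : ℝ) :=
  final_hodge_times W σ p hp Φ Y hY F e hF E r hr ε hε

end Pool.Agent.Results.MP_361a6f_ag.AlmostAllTimesVarieties
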