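import Pool.Agent.TH122.PrimD

/-!
# MP_361a6f_ag: the standard conjecture of Hodge type and isotropic classes

Grothendieck's standard conjecture of Hodge type asks for the definiteness of the intersection
forms on the primitive algebraic classes. We prove that it is enough to exclude isotropic classes,
and only in the middle codimension: for a class `𝒬` of polarized varieties closed under products
(for example all smooth projective varieties with ample divisors), the conjecture holds for all
members of `𝒬` if and only if no member of `𝒬` has a nonzero primitive algebraic class of the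
middle codimension with self-intersection number zero. It is even enough to exclude such classes
on the squares `X × X` of the members, that is, among the correspondences.
-/

open CategoryTheory AlgebraicGeometry

universe u v

namespace Pool.Agent.Results.MP_361a6f_ag.AnisotropicMiddle

open Pool.Agent.H914 Pool.Agent.H914.VarClass Pool.Agent.H914.VarClass.Obj
  Pool.Agent.H281R3.HT Pool.Agent.TH122.Aniso

/-- **The standard conjecture of Hodge type for all members of a class of polarized varieties
closed under products is equivalent to the absence of nonzero isotropic primitive algebraic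
classes of the middle codimension, on the members or only on their squares.** -/
theorem result {k : Type u} [Field k] {𝒱 : VarClass k} {ops : CycleOps 𝒱}
    (W : WeilCohomology.{u, v} ops) (𝒬 : Polarized 𝒱 → Prop)
    (hprod : ∀ P Q, 𝒬 P → 𝒬 Q → 𝒬 (P.prod ops Q))
    (hdiv : ∀ P, 𝒬 P → P.X.IsCyc 1 P.D)
    (hdeg : ∀ P, 𝒬 P → 0 < P.X.V.degCycle (divPow ops P.D P.X.dim P.X.V.fundCycle))
    (hHL : ∀ P, 𝒬 P → HardLefschetz W P.X P.D) :
    [∀ P, 𝒬 P → HodgeType W P.X P.D,
      ∀ P, 𝒬 P → ∀ m z, IsIsotropic W P.X P.D m z → W.cl P.X z = 0,
      ∀ P, 𝒬 P → ∀ z, IsIsotropic W (P.X.prod P.X) (boxSum ops P.D) P.X.dim z →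
        W.cl (P.X.prod P.X) z = 0].TFAE := by
  obtain ⟨h1, h2⟩ := hodge_iff' (W := W) (𝒬 := 𝒬) ⟨hprod, hdiv, hdeg, hHL⟩
  tfae_have 1 ↔ 2 := h1
  tfae_have 1 ↔ 3 := h2
  tfae_finish

end Pool.Agent.Results.MP_361a6f_ag.AnisotropicMiddle
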