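import Pool.Agent.TH122.IsoH

/-!
# MP_361a6f_ag: semidefiniteness is equivalent to the Riemann hypothesis for algebraic isometries

The standard conjecture of Hodge type was proposed because positivity implies the Riemann
hypothesis: the eigenvalues of an algebraic correspondence which preserves the Poincare pairing and
commutes with the Lefschetz operator have absolute value one. For this it is enough that the forms
are positive semidefinite. We prove the converse: for a class of polarized varieties closed under
products, with algebraic Kunneth projectors, the forms of the standard conjecture of Hodge type are
positive semidefinite on the primitive algebraic classes of all members if and only if the Riemann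
hypothesis holds for all algebraic isometries of all members.
-/

open CategoryTheory AlgebraicGeometry

universe u v

namespace Pool.Agent.Results.MP_361a6f_ag.RiemannHypothesisIsometries

open Pool.Agent.H914 Pool.Agent.H914.VarClass Pool.Agent.H914.VarClass.Obj
  Pool.Agent.H281R3.HT Pool.Agent.TH122.Aniso

/-- **The Riemann hypothesis for all algebraic isometries is equivalent to the semidefiniteness of
the forms of the standard conjecture of Hodge type.** -/
theorem result {k : Type u} [Field k] {𝒱 : VarClass k} {ops : CycleOps 𝒱}
    (W : WeilCohomology.{u, v} ops) (𝒬 : Polarized 𝒱 → Prop) (h : IsProductClass W 𝒬) :
    (∀ P, 𝒬 P → RiemannHypothesisForIsometries W P.X P.D) ↔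
      ∀ P, 𝒬 P → HodgeTypeSemidefinite W P.X P.D :=
  rh_iff_semidefinite h

end Pool.Agent.Results.MP_361a6f_ag.RiemannHypothesisIsometries
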