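import Pool.Agent.TH122.IsoD

/-!
# MP_361a6f_ag: the standard conjecture of Hodge type and unipotent isometries

The classical argument of Weil, Serre and Kleiman shows that the standard conjectures imply the
Riemann hypothesis: an algebraic correspondence which preserves the Poincare pairing and commutes
with the Lefschetz operator is semisimple, and its eigenvalues have absolute value one. We prove
the converse: for a class of polarized varieties closed under products, with algebraic Kunneth
projectors, the standard conjecture of Hodge type holds if (and only if) the identity is the only
unipotent algebraic isometry of each member.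
-/

open CategoryTheory AlgebraicGeometry

universe u v

namespace Pool.Agent.Results.MP_361a6f_ag.UnipotentIsometries

open Pool.Agent.H914 Pool.Agent.H914.VarClass Pool.Agent.H914.VarClass.Obj
  Pool.Agent.H281R3.HT Pool.Agent.TH122.Aniso

/-- **For a class of polarized varieties closed under products, with algebraic Kunneth projectors,
the following are equivalent: the standard conjecture of Hodge type; the semisimplicity of all
algebraic isometries, with eigenvalues of absolute value one; the triviality of all unipotent
algebraic isometries.** -/
theorem result {k : Type u} [Field k] {𝒱 : VarClass k} {ops : CycleOps 𝒱}
    (W : WeilCohomology.{u, v} ops) (𝒬 : Polarized 𝒱 → Prop) (h : IsProductClass W 𝒬) :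
    [∀ P, 𝒬 P → HodgeType W P.X P.D,
      ∀ P, 𝒬 P → SemisimpleIsometries W P.X P.D,
      ∀ P, 𝒬 P → NoUnipotentIsometries W P.X P.D].TFAE :=
  tfae h

end Pool.Agent.Results.MP_361a6f_ag.UnipotentIsometries
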